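import Mathlib

/-! Gluing pointwise continuous families of functions indexed by ordinal intervals. -/

set_option autoImplicit false

namespace Pool.Agent.H946Z.L1

open Ordinal Filter Set Topology

/-- `S` is the image of an interval `[0, a]`, `a < c`, under a pointwise continuous family. -/
def Cov {E : Type} (c : Ordinal.{0}) (S : Set (E → ℝ)) : Prop :=
  ∃ a < c, ∃ g : Ordinal.{0} → E → ℝ, (∀ z, Continuous fun t => g t z) ∧ g '' Iic a = S

theorem cont_sub (b : Ordinal.{0}) : Continuous fun t : Ordinal.{0} => t - b := by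
  rw [OrderTopology.continuous_iff]
  intro a
  constructor
  · have : (fun t : Ordinal.{0} => t - b) ⁻¹' Ioi a = Ioi (b + a) := by
      ext t; simp [Ordinal.lt_sub]
    rw [this]; exact isOpen_Ioi
  · rcases eq_or_ne a 0 with rfl | ha
    · have : (fun t : Ordinal.{0} => t - b) ⁻¹' Iio 0 = ∅ := by
        ext t; simp
      rw [this]; exact isOpen_empty
    · have : (fun t : Ordinal.{0} => t - b) ⁻¹' Iio a = Iio (b + a) := by
        ext t
        simp only [mem_preimage, mem_Iio]
        constructor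
        · intro h
          by_contra hc
          push Not at hc
          exact absurd (Ordinal.le_sub_of_add_le hc) (not_le.2 h)
        · intro h
          exact Ordinal.sub_lt_of_lt_add h (pos_iff_ne_zero.2 ha)
      rw [this]; exact isOpen_Iio

theorem cov_single {E : Type} {c : Ordinal.{0}} (hc : 0 < c) (p : E → ℝ) : Cov c {p} :=
  ⟨0, hc, fun _ => p, fun _ => continuous_const, by
    ext F; simp [eq_comm]⟩

theorem Cov.map {E : Type} {c : Ordinal.{0}} {S : Set (E → ℝ)} (h : Cov c S)
    (T : (E → ℝ) → E → ℝ) (hT : ∀ z, Continuous fun F => T F z) : Cov c (T '' S) := by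
  obtain ⟨a, ha, g, hg, rfl⟩ := h
  refine ⟨a, ha, fun t => T (g t), fun z => (hT z).comp (continuous_pi hg), ?_⟩
  rw [image_image]

theorem Cov.mono {E : Type} {c c' : Ordinal.{0}} {S : Set (E → ℝ)} (h : Cov c S) (hc : c ≤ c') :
    Cov c' S := by
  obtain ⟨a, ha, hg⟩ := h
  exact ⟨a, ha.trans_le hc, hg⟩

theorem glue_seq {E : Type} {c : Ordinal.{0}} (hc : IsPrincipal (· + ·) c) (h1 : 1 < c)
    (S : ℕ → Set (E → ℝ)) (hS : ∀ n, Cov c (S n)) (p : E → ℝ)
    (hp : ∀ z, ∀ δ : ℝ, 0 < δ → ∀ᶠ n in atTop, ∀ F ∈ S n, |F z - p z| < δ) :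
    ∃ g : Ordinal.{0} → E → ℝ, (∀ z, Continuous fun t => g t z) ∧
      g '' Iic c = insert p (⋃ n, S n) := by
  classical
  choose a ha g hg hgS using hS
  let b : ℕ → Ordinal.{0} := fun n => Nat.rec 0 (fun m x => x + a m + 1) n
  have b0 : b 0 = 0 := rfl
  have bs : ∀ n, b (n + 1) = b n + a n + 1 := fun n => rfl
  have hb : ∀ n, b n < c := by
    intro n
    induction n with
    | zero => exact lt_trans zero_lt_one h1
    | succ n ih => rw [bs]; exact hc (hc ih (ha n)) h1
  have hlt : ∀ n, b n + a n < b (n + 1) := fun n => by rw [bs]; exact lt_add_one _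
  have hmono : StrictMono b := strictMono_nat_of_lt_succ fun n =>
    lt_of_le_of_lt le_self_add (hlt n)
  let G : Ordinal.{0} → E → ℝ := fun t =>
    if h : ∃ n, t < b (n + 1) then g (Nat.find h) (t - b (Nat.find h)) else p
  have hG : ∀ n t, b n ≤ t → t < b (n + 1) → G t = g n (t - b n) := by
    intro n t h1 h2
    have h : ∃ n, t < b (n + 1) := ⟨n, h2⟩
    have : Nat.find h = n := by
      rw [Nat.find_eq_iff]
      refine ⟨h2, fun m hm hc => ?_⟩
      exact absurd (lt_of_le_of_lt h1 hc) (not_lt.2 (hmono.monotone hm))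
    simp only [G, dif_pos h, this]
  have hex : ∀ t, (∃ n, t < b (n + 1)) → ∃ n, b n ≤ t ∧ t < b (n + 1) := by
    intro t h
    refine ⟨Nat.find h, ?_, Nat.find_spec h⟩
    rcases Nat.eq_zero_or_eq_succ_pred (Nat.find h) with h0 | h0
    · rw [h0, b0]; exact zero_le
    · have := Nat.find_min h (m := (Nat.find h).pred) (by omega)
      rw [h0]; exact not_lt.1 this
  have hmem : ∀ n t, b n ≤ t → t < b (n + 1) → G t ∈ S n := by
    intro n t h1 h2
    rw [hG n t h1 h2, ← hgS n]
    refine ⟨t - b n, ?_, rfl⟩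
    rw [mem_Iic, Ordinal.sub_le]
    rw [bs] at h2
    exact Order.lt_add_one_iff.1 h2
  refine ⟨G, fun z => continuous_iff_continuousAt.2 fun t => ?_, ?_⟩
  · by_cases h : ∃ n, t < b (n + 1)
    · obtain ⟨n, h1, h2⟩ := hex t h
      have hn : Ico (b n) (b (n + 1)) ∈ 𝓝 t := by
        rcases n with _ | m
        · refine mem_of_superset (Iio_mem_nhds h2) fun s hs => ⟨?_, hs⟩
          rw [b0]; exact zero_le
        · refine mem_of_superset (Ioo_mem_nhds (lt_of_lt_of_le (hlt m) h1) h2) fun s hs =>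
            ⟨?_, hs.2⟩
          rw [bs]; exact Order.add_one_le_iff.2 hs.1
      have hcont : ContinuousAt (fun s => g n (s - b n) z) t :=
        ((hg n z).comp (cont_sub (b n))).continuousAt
      refine hcont.congr ?_
      filter_upwards [hn] with s hs
      rw [hG n s hs.1 hs.2]
    · have hGt : G t = p := by simp only [G, dif_neg h]
      rw [ContinuousAt, Metric.tendsto_nhds]
      intro δ hδ
      obtain ⟨M, hM⟩ := eventually_atTop.1 (hp z δ hδ)
      push Not at h
      have : b M < t := lt_of_lt_of_le (hmono (Nat.lt_succ_self M)) (h M)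
      filter_upwards [Ioi_mem_nhds this] with s hs
      rw [hGt, Real.dist_eq]
      by_cases h' : ∃ n, s < b (n + 1)
      · obtain ⟨n, h1, h2⟩ := hex s h'
        have hMn : M ≤ n := by
          have : b M < b (n + 1) := lt_trans hs h2
          have := (hmono.lt_iff_lt (a := M) (b := n + 1)).1 this
          omega
        exact hM n hMn _ (hmem n s h1 h2)
      · have : G s = p := by simp only [G, dif_neg h']
        rw [this]; simpa using hδ
  · ext F
    constructor
    · rintro ⟨t, -, rfl⟩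
      by_cases h : ∃ n, t < b (n + 1)
      · obtain ⟨n, h1, h2⟩ := hex t h
        exact Or.inr (mem_iUnion.2 ⟨n, hmem n t h1 h2⟩)
      · left; simp only [G, dif_neg h]
    · rintro (rfl | hF)
      · refine ⟨c, mem_Iic.2 le_rfl, ?_⟩
        have h : ¬ ∃ n, c < b (n + 1) := by
          rintro ⟨n, hn⟩; exact absurd (hb (n + 1)) (not_lt.2 hn.le)
        simp only [G, dif_neg h]
      · obtain ⟨n, hn⟩ := mem_iUnion.1 hF
        rw [← hgS n] at hn
        obtain ⟨s, hs, rfl⟩ := hn
        have h2 : b n + s < b (n + 1) := lt_of_le_of_lt (add_le_add_right hs _) (hlt n)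
        refine ⟨b n + s, (h2.trans (hb (n + 1))).le, ?_⟩
        rw [hG n _ le_self_add h2, Ordinal.add_sub_cancel]

theorem glue {E : Type} {c : Ordinal.{0}} (hc : IsPrincipal (· + ·) c) (h1 : 1 < c)
    {ι : Type} [Countable ι] (S : ι → Set (E → ℝ)) (hS : ∀ i, Cov c (S i)) (p : E → ℝ)
    (hp : ∀ z, ∀ δ : ℝ, 0 < δ → ∀ᶠ i in cofinite, ∀ F ∈ S i, |F z - p z| < δ) :
    ∃ g : Ordinal.{0} → E → ℝ, (∀ z, Continuous fun t => g t z) ∧
      g '' Iic c = insert p (⋃ i, S i) := by
  classical
  obtain ⟨e, he⟩ := exists_injective_nat ι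
  let S' : ℕ → Set (E → ℝ) := fun n => if h : ∃ i, e i = n then S h.choose else {p}
  have hS'e : ∀ i, S' (e i) = S i := by
    intro i
    have h : ∃ j, e j = e i := ⟨i, rfl⟩
    simp only [S', dif_pos h, he h.choose_spec]
  obtain ⟨g, hg, hgi⟩ := glue_seq hc h1 S' (fun n => by
    by_cases h : ∃ i, e i = n
    · obtain ⟨i, rfl⟩ := h
      rw [hS'e]; exact hS i
    · simp only [S', dif_neg h]; exact cov_single (lt_trans zero_lt_one h1) p) p (by
    intro z δ hδ
    have hf := (eventually_cofinite.1 (hp z δ hδ)).image e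
    obtain ⟨M, hM⟩ := hf.bddAbove
    filter_upwards [eventually_gt_atTop M] with n hn
    by_cases h : ∃ i, e i = n
    · obtain ⟨i, rfl⟩ := h
      rw [hS'e]
      by_contra hcon
      exact absurd (hM ⟨i, hcon, rfl⟩) (not_le.2 hn)
    · simp only [S', dif_neg h]
      rintro F rfl
      simpa using hδ)
  refine ⟨g, hg, ?_⟩
  rw [hgi]
  ext F
  simp only [mem_insert_iff, mem_iUnion]
  constructor
  · rintro (h | ⟨n, hn⟩)
    · exact Or.inl h
    · by_cases h : ∃ i, e i = n
      · obtain ⟨i, rfl⟩ := h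
        rw [hS'e] at hn; exact Or.inr ⟨i, hn⟩
      · simp only [S', dif_neg h] at hn; exact Or.inl hn
  · rintro (h | ⟨i, hi⟩)
    · exact Or.inl h
    · exact Or.inr ⟨e i, by rw [hS'e]; exact hi⟩

end Pool.Agent.H946Z.L1
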