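import Pool.Agent.H946Z.L1.Tree

/-! A norming family of 1-Lipschitz functions on `ℓ₁` indexed continuously by `[0, ω^ω]`. -/

set_option autoImplicit false

namespace Pool.Agent.H946Z.L1

open Ordinal Filter Set Topology

/-- Clamping to the interval `[a, b]`. -/
noncomputable def clamp (a b s : ℝ) : ℝ := max a (min s b)

theorem clamp_lip (a b s t : ℝ) : |clamp a b s - clamp a b t| ≤ |s - t| := by
  unfold clamp
  refine (abs_max_sub_max_le_max _ _ _ _).trans (max_le (by simp) ?_)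
  refine (abs_min_sub_min_le_max _ _ _ _).trans (max_le le_rfl (by simp))

/-- Soft thresholding. -/
noncomputable def soft (m s : ℝ) : ℝ := max (s - m) 0 + min (s + m) 0

theorem soft_lip {m : ℝ} (hm : 0 ≤ m) (s t : ℝ) : |soft m s - soft m t| ≤ |s - t| := by
  unfold soft
  rw [abs_le]
  have h1 := le_abs_self (s - t)
  have h2 := neg_abs_le (s - t)
  constructor <;>
  rcases le_total (s - m) 0 with a | a <;> rcases le_total (s + m) 0 with b | b <;>
  rcases le_total (t - m) 0 with c | c <;> rcases le_total (t + m) 0 with d | d <;>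
  simp only [max_eq_left, max_eq_right, min_eq_left, min_eq_right, a, b, c, d] <;>
  linarith [abs_nonneg (s - t)]

theorem soft_near {m : ℝ} (hm : 0 ≤ m) (s : ℝ) : |soft m s - s| ≤ m := by
  unfold soft
  rw [abs_le]
  constructor <;>
  rcases le_total (s - m) 0 with a | a <;> rcases le_total (s + m) 0 with b | b <;>
  simp only [max_eq_left, max_eq_right, min_eq_left, min_eq_right, a, b] <;>
  linarith

theorem soft_zero {m s : ℝ} (h : |s| ≤ m) : soft m s = 0 := by
  unfold soft
  rw [abs_le] at h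
  rw [max_eq_right (by linarith), min_eq_right (by linarith), add_zero]

/-- The window function. -/
noncomputable def win (m a b s : ℝ) : ℝ := soft m (clamp a b s - clamp a b 0)

theorem win_lip {m : ℝ} (hm : 0 ≤ m) (a b s t : ℝ) : |win m a b s - win m a b t| ≤ |s - t| := by
  unfold win
  refine (soft_lip hm _ _).trans ?_
  rw [sub_sub_sub_cancel_right]; exact clamp_lip a b s t

theorem win_cont {m : ℝ} (hm : 0 ≤ m) (a b : ℝ) : Continuous (win m a b) :=
  (LipschitzWith.of_dist_le_mul (K := 1) fun s t => by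
    simpa [Real.dist_eq] using win_lip hm a b s t).continuous

theorem win_zero {m : ℝ} (hm : 0 ≤ m) (a b : ℝ) : win m a b 0 = 0 := by
  unfold win; exact soft_zero (by simpa using hm)

theorem win_small {m : ℝ} (hm : 0 ≤ m) {a b : ℝ} (hab : a ≤ b) (s : ℝ) :
    |win m a b s| ≤ b - a := by
  have h := soft_lip hm (clamp a b s - clamp a b 0) 0
  rw [soft_zero (m := m) (s := 0) (by simpa using hm), _root_.sub_zero, _root_.sub_zero] at h
  refine h.trans ?_
  have h1 : ∀ t, a ≤ clamp a b t := fun t => le_max_left _ _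
  have h2 : ∀ t, clamp a b t ≤ b := fun t => max_le hab (min_le_right _ _)
  rw [abs_le]
  constructor <;> linarith [h1 s, h2 s, h1 0, h2 0]

theorem win_of_le {m s : ℝ} (a b : ℝ) (h : |s| ≤ m) : win m a b s = 0 := by
  unfold win
  refine soft_zero ((clamp_lip a b s 0).trans ?_)
  rwa [_root_.sub_zero]

theorem win_of_le' {m : ℝ} (hm : 0 ≤ m) {a b s : ℝ} (h : |s| ≤ a) : win m a b s = 0 := by
  unfold win
  have h1 : clamp a b s = a := max_eq_left ((min_le_left _ _).trans ((le_abs_self s).trans h))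
  have h2 : clamp a b 0 = a := max_eq_left ((min_le_left _ _).trans ((abs_nonneg s).trans h))
  rw [h1, h2]; exact soft_zero (by simpa using hm)

theorem win_sub {m : ℝ} (hm : 0 ≤ m) {a b s t : ℝ} (hs : s ∈ Icc a b) (ht : t ∈ Icc a b) :
    s - t - 2 * m ≤ win m a b s - win m a b t := by
  have h1 : clamp a b s = s := by unfold clamp; rw [min_eq_left hs.2, max_eq_right hs.1]
  have h2 : clamp a b t = t := by unfold clamp; rw [min_eq_left ht.2, max_eq_right ht.1]
  unfold win
  rw [h1, h2]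
  have h3 := abs_le.1 (soft_near hm (s - clamp a b 0))
  have h4 := abs_le.1 (soft_near hm (t - clamp a b 0))
  linarith [h3.1, h4.2]

theorem exists_norming {e : ℝ} (he : 0 < e) (he1 : e ≤ 1) :
    ∃ g : Ordinal.{0} → E → ℝ, (∀ z, Continuous fun t => g t z) ∧
      (∀ t ≤ ω ^ ω, g t 0 = 0 ∧ ∀ z w, |g t z - g t w| ≤ ‖z - w‖) ∧
      ∀ x y : E, ∃ t ≤ ω ^ ω, (1 - e) * ‖x - y‖ ≤ g t x - g t y := by
  have hD : ∀ k : ℤ, (0 : ℝ) < 2 ^ k := fun k => by positivity
  choose S hS1 hS2 hS3 using fun c : ℤ × ℕ =>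
    exists_family (c.2 * 2 ^ c.1) (e * 2 ^ c.1 / 72) (by have := hD c.1; positivity)
  have hm : ∀ k : ℤ, 0 ≤ e * 2 ^ k / 4 := fun k => by have := hD k; positivity
  have habs : ∀ c, ∀ F ∈ S c, ∀ z w, |F z - F w| ≤ ‖z - w‖ := fun c F hF z w => by
    have h1 := (hS2 c F hF).2 z w
    have h2 := (hS2 c F hF).2 w z
    rw [norm_sub_rev] at h2
    rw [abs_le]; constructor <;> linarith
  have h1 : (1 : Ordinal.{0}) < ω ^ ω := by
    rw [one_lt_opow]; exact ⟨one_lt_omega0, omega0_ne_zero⟩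
  obtain ⟨g, hg, hgi⟩ := glue (isPrincipal_add_omega0_opow _) h1
    (fun c : ℤ × ℕ => (fun F z => win (e * 2 ^ c.1 / 4) ((c.2 - 4) * 2 ^ c.1) (c.2 * 2 ^ c.1) (F z))
      '' S c)
    (fun c => (hS1 c).map _ fun z => Continuous.comp' (win_cont (hm c.1) _ _)
      (continuous_apply (A := fun _ : E => ℝ) z)) 0 (by
      intro z δ hδ
      obtain ⟨k1, hk1⟩ : ∃ k1 : ℤ, ∀ k ≤ k1, 4 * (2 : ℝ) ^ k < δ := by
        obtain ⟨k, hk, -⟩ := exists_mem_Ico_zpow (show 0 < δ / 8 by positivity)
          (one_lt_two (α := ℝ))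
        refine ⟨k, fun j hj => ?_⟩
        have h3 : (2 : ℝ) ^ j ≤ 2 ^ k := zpow_le_zpow_right₀ one_le_two hj
        linarith
      obtain ⟨k2, hk2⟩ := pow_unbounded_of_one_lt (4 * ‖z‖ / e) (one_lt_two (α := ℝ))
      obtain ⟨a0, ha0⟩ := exists_nat_ge (4 + 4 * ‖z‖ / δ)
      rw [eventually_cofinite]
      refine ((Set.finite_Icc k1 (k2 : ℤ)).prod (Set.finite_Iic a0)).subset ?_
      rintro ⟨k, a⟩ hbad
      by_contra hcon
      apply hbad
      rintro _ ⟨F, hF, rfl⟩
      have hz : |F z| ≤ ‖z‖ := by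
        have := habs _ F hF z 0
        rwa [(hS2 _ F hF).1, _root_.sub_zero, _root_.sub_zero] at this
      change |win (e * 2 ^ k / 4) ((a - 4) * 2 ^ k) (a * 2 ^ k) (F z) - 0| < δ
      rw [_root_.sub_zero]
      have hk := hD k
      rcases lt_or_ge (4 * (2 : ℝ) ^ k) δ with hsm | hsm
      · have hab : ((a : ℝ) - 4) * 2 ^ k ≤ a * 2 ^ k := by nlinarith
        refine lt_of_le_of_lt (win_small (hm k) hab _) ?_
        linarith
      have hk1' : k1 ≤ k := by
        by_contra h
        exact absurd (hk1 k (not_le.1 h).le) (not_lt.2 hsm)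
      rcases le_or_gt k k2 with hk2' | hk2'
      · have ha : a0 < a := by
          by_contra h
          exact hcon ⟨⟨hk1', hk2'⟩, not_lt.1 h⟩
        have ha' : (a0 : ℝ) ≤ a := by exact_mod_cast ha.le
        rw [win_of_le' (hm k) (hz.trans ?_)]
        · simpa using hδ
        have h3 : 4 * ‖z‖ / δ ≤ a - 4 := by linarith
        rw [div_le_iff₀ hδ] at h3
        have h4 : (0 : ℝ) ≤ a - 4 := by
          have : 0 ≤ 4 * ‖z‖ / δ := by positivity
          linarith
        nlinarith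
      · rw [win_of_le _ _ (hz.trans ?_)]
        · simpa using hδ
        have h3 : (2 : ℝ) ^ (k2 : ℤ) ≤ 2 ^ k := zpow_le_zpow_right₀ one_le_two hk2'.le
        rw [zpow_natCast] at h3
        rw [div_lt_iff₀ he] at hk2
        nlinarith)
  refine ⟨g, hg, fun t ht => ?_, fun x y => ?_⟩
  · have : g t ∈ g '' Iic (ω ^ ω) := ⟨t, ht, rfl⟩
    rw [hgi] at this
    rcases this with h | h
    · rw [h]; simp
    · obtain ⟨c, F, hF, h⟩ := mem_iUnion.1 h
      rw [← h]
      refine ⟨?_, fun z w => (win_lip (hm _) _ _ _ _).trans (habs c F hF z w)⟩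
      simp only
      rw [(hS2 c F hF).1]; exact win_zero (hm _) _ _
  · rcases eq_or_lt_of_le (norm_nonneg (x - y)) with h0 | h0
    · have : (0 : E → ℝ) ∈ g '' Iic (ω ^ ω) := by rw [hgi]; exact Or.inl rfl
      obtain ⟨t, ht, h⟩ := this
      exact ⟨t, ht, by rw [h, ← h0]; simp⟩
    obtain ⟨k, hk1, hk2⟩ := exists_mem_Ico_zpow h0 (one_lt_two (α := ℝ))
    rw [zpow_add_one₀ two_ne_zero] at hk2
    have hk := hD k
    set D : ℝ := 2 ^ k with hDdef
    set d := ‖x - y‖ with hd
    have heD : e * D ≤ D := by nlinarith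
    have heD0 : 0 < e * D := by positivity
    have hq : 0 ≤ (‖x‖ - d - e * D / 4) / D + 4 := by
      have : -4 ≤ (‖x‖ - d - e * D / 4) / D := by
        rw [le_div_iff₀ hk]; linarith [norm_nonneg x]
      linarith
    set a := ⌊(‖x‖ - d - e * D / 4) / D + 4⌋₊ with ha
    have a1 : (a : ℝ) - 4 ≤ (‖x‖ - d - e * D / 4) / D := by linarith [Nat.floor_le hq]
    have a2 : (‖x‖ - d - e * D / 4) / D < a - 3 := by
      linarith [Nat.lt_floor_add_one ((‖x‖ - d - e * D / 4) / D + 4)]
    rw [le_div_iff₀ hk] at a1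
    rw [div_lt_iff₀ hk] at a2
    obtain ⟨F, hF, hFz⟩ := hS3 (k, a) x (by simp only; linarith)
    have : (fun z => win (e * D / 4) ((a - 4) * D) (a * D) (F z)) ∈ g '' Iic (ω ^ ω) := by
      rw [hgi]; exact Or.inr (mem_iUnion.2 ⟨(k, a), F, hF, rfl⟩)
    obtain ⟨t, ht, h⟩ := this
    refine ⟨t, ht, ?_⟩
    rw [h]
    have hx := abs_le.1 (hFz x)
    have hy := abs_le.1 (hFz y)
    have e1 : hor x x = ‖x‖ := by simp [hor]
    have e2 : hor x y = ‖x‖ - d := by rw [hor, norm_sub_rev]
    rw [e1] at hx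
    rw [e2] at hy
    simp only [← hDdef] at hx hy
    have := win_sub (hm k) (a := (a - 4) * D) (b := a * D) (s := F x) (t := F y)
      ⟨by linarith [hx.1], by linarith [hx.2]⟩ ⟨by linarith [hy.1], by linarith [hy.2]⟩
    simp only [← hDdef] at this
    have h5 : e * D ≤ e * d := by nlinarith
    simp only
    nlinarith [hx.1, hy.2]

end Pool.Agent.H946Z.L1
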