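import Pool.Agent.H946Z.L1.Glue

/-! Finite-rank families of 1-Lipschitz functions approximating the horofunctions of `ℓ₁`. -/

set_option autoImplicit false

namespace Pool.Agent.H946Z.L1

open Ordinal Filter Set Topology

abbrev E : Type := lp (fun _ : ℕ => ℝ) 1

theorem hs (z : E) : HasSum (fun i => |z i|) ‖z‖ := by
  have := lp.hasSum_norm (p := 1) (by simp) z
  simpa using this

/-- The mass of `z` on the coordinates `≥ N`. -/
noncomputable def tail (N : ℕ) (z : E) : ℝ := ‖z‖ - ∑ i ∈ Finset.range N, |z i|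

theorem hs_tail (N : ℕ) (z : E) : HasSum (fun i => |z (i + N)|) (tail N z) :=
  (hasSum_nat_add_iff' (f := fun i => |z i|) N).2 (hs z)

theorem tail_nonneg (N : ℕ) (z : E) : 0 ≤ tail N z :=
  (hs_tail N z).nonneg fun _ => abs_nonneg _

theorem tail_sub_le (N : ℕ) (z w : E) : tail N (z - w) ≤ tail N z + tail N w :=
  hasSum_le (fun i => by
    rw [lp.coeFn_sub, Pi.sub_apply]; exact abs_sub _ _) (hs_tail N (z - w))
    ((hs_tail N z).add (hs_tail N w))

theorem tail_le_add (N : ℕ) (z w : E) : tail N z ≤ tail N (z - w) + tail N w :=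
  hasSum_le (fun i => by
    rw [lp.coeFn_sub, Pi.sub_apply]
    have := abs_add_le (z (i + N) - w (i + N)) (w (i + N))
    simpa using this) (hs_tail N z) ((hs_tail N (z - w)).add (hs_tail N w))

theorem tail_le_add' (N : ℕ) (z w : E) : tail N w ≤ tail N (z - w) + tail N z :=
  hasSum_le (fun i => by
    rw [lp.coeFn_sub, Pi.sub_apply]
    have := abs_sub (z (i + N)) (z (i + N) - w (i + N))
    rw [sub_sub_cancel] at this
    linarith) (hs_tail N w) ((hs_tail N (z - w)).add (hs_tail N z))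

theorem tail_succ (N : ℕ) (z : E) : tail N z = |z N| + tail (N + 1) z := by
  simp only [tail, Finset.sum_range_succ]; ring

theorem tail_Ico {N M : ℕ} (h : N ≤ M) (z : E) :
    tail N z = ∑ i ∈ Finset.Ico N M, |z i| + tail M z := by
  simp only [tail]
  rw [← Finset.sum_range_add_sum_Ico _ h]; ring

theorem tail_anti {N M : ℕ} (h : N ≤ M) (z : E) : tail M z ≤ tail N z := by
  rw [tail_Ico h z]
  have : 0 ≤ ∑ i ∈ Finset.Ico N M, |z i| := Finset.sum_nonneg fun _ _ => abs_nonneg _
  linarith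

theorem tail_tendsto (z : E) : Tendsto (fun N => tail N z) atTop (𝓝 0) := by
  have := (hs z).tendsto_sum_nat
  have h2 := (tendsto_const_nhds (x := ‖z‖) (f := atTop)).sub this
  simpa [tail] using h2

/-- The node function. -/
noncomputable def gN (θ : ℝ) (N : ℕ) (u : ℕ → ℝ) (z : E) : ℝ :=
  ∑ i ∈ Finset.range N, (|u i| - |z i - u i|) + min (tail N z) (2 * θ - tail N z)

/-- The horofunction of `x`. -/
noncomputable def hor (x z : E) : ℝ := ‖x‖ - ‖z - x‖

theorem hor_eq (N : ℕ) (x z : E) : hor x z =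
    ∑ i ∈ Finset.range N, (|x i| - |z i - x i|) + (tail N x - tail N (z - x)) := by
  simp only [hor, tail, Finset.sum_sub_distrib, lp.coeFn_sub, Pi.sub_apply]; ring

theorem gN_lip (θ : ℝ) (N : ℕ) (u : ℕ → ℝ) (z w : E) : gN θ N u z - gN θ N u w ≤ ‖z - w‖ := by
  have h1 : ∑ i ∈ Finset.range N, (|u i| - |z i - u i|) -
      ∑ i ∈ Finset.range N, (|u i| - |w i - u i|) ≤ ∑ i ∈ Finset.range N, |(z - w) i| := by
    rw [← Finset.sum_sub_distrib]
    refine Finset.sum_le_sum fun i _ => ?_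
    rw [lp.coeFn_sub, Pi.sub_apply]
    have := abs_sub (z i - u i) (z i - w i)
    rw [show z i - u i - (z i - w i) = w i - u i by ring] at this
    linarith
  have h2 := tail_le_add N z w
  have h3 := tail_le_add' N z w
  have h4 : tail N (z - w) = ‖z - w‖ - ∑ i ∈ Finset.range N, |(z - w) i| := rfl
  have h5 : min (tail N z) (2 * θ - tail N z) - min (tail N w) (2 * θ - tail N w) ≤
      tail N (z - w) := by
    rcases le_total (tail N w) (2 * θ - tail N w) with h | h
    · rw [min_eq_left h]; have := min_le_left (tail N z) (2 * θ - tail N z); linarith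
    · rw [min_eq_right h]; have := min_le_right (tail N z) (2 * θ - tail N z); linarith
  simp only [gN]; linarith

theorem gN_child {θ : ℝ} {N M : ℕ} (h : N ≤ M) {u v : ℕ → ℝ} (huv : ∀ i < N, v i = u i)
    (hv : ∑ i ∈ Finset.Ico N M, |v i| ≤ θ) (z : E) :
    gN θ (M + 1) v z ≤ gN θ N u z + 2 * tail M z := by
  have e1 : ∑ i ∈ Finset.range N, (|v i| - |z i - v i|) =
      ∑ i ∈ Finset.range N, (|u i| - |z i - u i|) :=
    Finset.sum_congr rfl fun i hi => by rw [huv i (Finset.mem_range.1 hi)]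
  have a1 : ∑ i ∈ Finset.Ico N M, (|v i| - |z i - v i|) ≤ ∑ i ∈ Finset.Ico N M, |z i| :=
    Finset.sum_le_sum fun i _ => by
      have := abs_sub (z i) (z i - v i)
      rw [sub_sub_cancel] at this; linarith
  have a2 : ∑ i ∈ Finset.Ico N M, (|v i| - |z i - v i|) ≤
      ∑ i ∈ Finset.Ico N M, (2 * |v i| - |z i|) :=
    Finset.sum_le_sum fun i _ => by
      have := abs_add_le (z i - v i) (v i)
      rw [sub_add_cancel] at this; linarith
  rw [Finset.sum_sub_distrib (f := fun i => 2 * |v i|), ← Finset.mul_sum] at a2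
  have a3 : |v M| - |z M - v M| ≤ |z M| := by
    have := abs_sub (z M) (z M - v M)
    rw [sub_sub_cancel] at this; linarith
  have a4 := min_le_left (tail (M + 1) z) (2 * θ - tail (M + 1) z)
  have a5 := tail_succ M z
  have a6 := tail_Ico h z
  have a7 := tail_nonneg M z
  simp only [gN]
  rw [Finset.sum_range_succ, ← Finset.sum_range_add_sum_Ico _ h, e1]
  rcases le_total (tail N z) (2 * θ - tail N z) with h' | h'
  · rw [min_eq_left h']; linarith
  · rw [min_eq_right h']; linarith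

theorem sum_approx {η : ℝ} {N : ℕ} {u : ℕ → ℝ} {x : E}
    (hu : ∑ i ∈ Finset.range N, |u i - x i| ≤ η) (z : E) :
    |∑ i ∈ Finset.range N, (|u i| - |z i - u i|) -
      ∑ i ∈ Finset.range N, (|x i| - |z i - x i|)| ≤ 2 * η := by
  rw [← Finset.sum_sub_distrib]
  refine (Finset.abs_sum_le_sum_abs _ _).trans ?_
  have : ∑ i ∈ Finset.range N, |(|u i| - |z i - u i|) - (|x i| - |z i - x i|)| ≤
      ∑ i ∈ Finset.range N, 2 * |u i - x i| := by
    refine Finset.sum_le_sum fun i _ => ?_
    have h1 := abs_abs_sub_abs_le (u i) (x i)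
    have h2 := abs_abs_sub_abs_le (z i - x i) (z i - u i)
    rw [show z i - x i - (z i - u i) = u i - x i by ring] at h2
    rw [abs_le] at h1 h2 ⊢
    constructor <;> linarith [h1.1, h1.2, h2.1, h2.2]
  rw [← Finset.mul_sum] at this
  linarith

theorem gN_upper {θ η : ℝ} {N : ℕ} {u : ℕ → ℝ} {x : E}
    (hu : ∑ i ∈ Finset.range N, |u i - x i| ≤ η) (z : E) :
    gN θ N u z ≤ hor x z + 2 * θ + 2 * η := by
  have h1 := (abs_le.1 (sum_approx hu z)).2
  have h2 := tail_sub_le N z x
  have h3 := min_le_right (tail N z) (2 * θ - tail N z)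
  rw [hor_eq N]; simp only [gN]; linarith

theorem gN_lower {θ η : ℝ} {N : ℕ} {u : ℕ → ℝ} {x : E}
    (hu : ∑ i ∈ Finset.range N, |u i - x i| ≤ η) (hx : tail N x ≤ θ) (z : E) :
    hor x z - 2 * η ≤ gN θ N u z := by
  have h1 := (abs_le.1 (sum_approx hu z)).1
  have h2 := tail_le_add N z x
  have h3 := tail_le_add' N z x
  have h4 : tail N x - tail N (z - x) ≤ min (tail N z) (2 * θ - tail N z) :=
    le_min (by linarith) (by linarith)
  rw [hor_eq N]; simp only [gN]; linarith

/-- The children of a node. -/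
def Child (Γ : ℕ → Set ℝ) (θ : ℝ) (N : ℕ) (u : ℕ → ℝ) (c : ℕ × (ℕ → ℝ)) : Prop :=
  N ≤ c.1 ∧ (∀ i < N, c.2 i = u i) ∧ (∀ i ≤ c.1, c.2 i ∈ Γ i) ∧ (∀ i, c.1 < i → c.2 i = 0) ∧
    ∑ i ∈ Finset.Ico N c.1, |c.2 i| ≤ θ

/-- The family of functions attached to the subtree of height `r` under a node. -/
def Fam (Γ : ℕ → Set ℝ) (θ : ℝ) : ℕ → ℕ → (ℕ → ℝ) → Set (E → ℝ)
  | 0, N, u => {gN θ N u}
  | r + 1, N, u => insert (gN θ N u) (⋃ c : {c // Child Γ θ N u c},
      (fun F z => max (gN θ N u z) (F z)) '' Fam Γ θ r (c.1.1 + 1) c.1.2)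

theorem fam_lip {Γ : ℕ → Set ℝ} {θ : ℝ} : ∀ (r N : ℕ) (u : ℕ → ℝ), ∀ F ∈ Fam Γ θ r N u,
    ∀ z w, F z - F w ≤ ‖z - w‖
  | 0, N, u, F, hF, z, w => by
    rw [Fam, mem_singleton_iff] at hF; subst hF; exact gN_lip θ N u z w
  | r + 1, N, u, F, hF, z, w => by
    rw [Fam] at hF
    rcases hF with rfl | hF
    · exact gN_lip θ N u z w
    · obtain ⟨c, F', hF', rfl⟩ := mem_iUnion.1 hF
      have h1 := fam_lip r _ _ F' hF' z w
      have h2 := gN_lip θ N u z w
      have h3 := le_max_left (gN θ N u w) (F' w)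
      have h4 := le_max_right (gN θ N u w) (F' w)
      simp only
      rcases le_total (gN θ N u z) (F' z) with h | h
      · rw [max_eq_right h]; linarith
      · rw [max_eq_left h]; linarith

theorem fam_up {Γ : ℕ → Set ℝ} {θ : ℝ} : ∀ (r N : ℕ) (u : ℕ → ℝ), ∀ F ∈ Fam Γ θ r N u,
    ∀ z, F z ≤ gN θ N u z + 2 * r * tail N z
  | 0, N, u, F, hF, z => by
    rw [Fam, mem_singleton_iff] at hF; subst hF; simp
  | r + 1, N, u, F, hF, z => by
    rw [Fam] at hF
    have h0 := tail_nonneg N z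
    have hr : (0 : ℝ) ≤ r := Nat.cast_nonneg r
    rcases hF with rfl | hF
    · push_cast; nlinarith
    · obtain ⟨⟨c, hc⟩, F', hF', rfl⟩ := mem_iUnion.1 hF
      have h1 := fam_up r _ _ F' hF' z
      have h2 := gN_child hc.1 hc.2.1 hc.2.2.2.2 z
      have h3 := tail_anti hc.1 z
      have h4 := tail_anti (Nat.le_succ c.1) z
      push_cast
      refine max_le (by nlinarith) ?_
      simp only at h1
      nlinarith

theorem fin_child {Γ : ℕ → Set ℝ} (hΓ : ∀ i, (Γ i).Finite) (θ : ℝ) (N : ℕ) (u : ℕ → ℝ) (M : ℕ) :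
    {c | Child Γ θ N u c ∧ c.1 < M}.Finite := by
  have h1 : (Set.pi univ fun i : Fin M => insert 0 (Γ i)).Finite :=
    Set.Finite.pi fun i => (hΓ i).insert 0
  have h2 := (Set.finite_Iio M).prod
    (h1.image fun (f : Fin M → ℝ) (i : ℕ) => if h : i < M then f ⟨i, h⟩ else 0)
  refine h2.subset ?_
  rintro c ⟨hc, hM⟩
  refine ⟨hM, fun i => c.2 i, fun i _ => ?_, ?_⟩
  · rcases le_or_gt (i : ℕ) c.1 with h | h
    · exact Or.inr (hc.2.2.1 i h)
    · exact Or.inl (hc.2.2.2.1 i h)
  · funext i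
    simp only
    split_ifs with h
    · rfl
    · exact (hc.2.2.2.1 i (by omega)).symm

theorem fam_cov {Γ : ℕ → Set ℝ} (hΓ : ∀ i, (Γ i).Finite) (θ : ℝ) :
    ∀ (r N : ℕ) (u : ℕ → ℝ), Cov (ω ^ ((r + 1 : ℕ) : Ordinal.{0})) (Fam Γ θ r N u)
  | 0, N, u => cov_single (opow_pos _ omega0_pos) _
  | r + 1, N, u => by
    have hcount : {c | Child Γ θ N u c}.Countable := by
      have : {c | Child Γ θ N u c} = ⋃ M : ℕ, {c | Child Γ θ N u c ∧ c.1 < M} := by
        ext c
        simp only [mem_ofPred_eq, mem_iUnion]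
        exact ⟨fun h => ⟨c.1 + 1, h, Nat.lt_succ_self _⟩, fun ⟨_, h, _⟩ => h⟩
      rw [this]
      exact countable_iUnion fun M => (fin_child hΓ θ N u M).countable
    have : Countable {c // Child Γ θ N u c} := hcount.to_subtype
    have h1 : (1 : Ordinal.{0}) < ω ^ ((r + 1 : ℕ) : Ordinal.{0}) := by
      rw [one_lt_opow]; exact ⟨one_lt_omega0, by exact_mod_cast Nat.succ_ne_zero r⟩
    obtain ⟨g, hg, hgi⟩ := glue (isPrincipal_add_omega0_opow _) h1
      (fun c : {c // Child Γ θ N u c} =>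
        (fun F z => max (gN θ N u z) (F z)) '' Fam Γ θ r (c.1.1 + 1) c.1.2)
      (fun c => (fam_cov hΓ θ r _ _).map _ fun z => continuous_const.max (continuous_apply z))
      (gN θ N u) (by
        intro z δ hδ
        have ht : Tendsto (fun M => 2 * ((r : ℝ) + 1) * tail M z) atTop (𝓝 0) := by
          simpa using (tail_tendsto z).const_mul (2 * ((r : ℝ) + 1))
        obtain ⟨M, hM⟩ := eventually_atTop.1 (ht.eventually (gt_mem_nhds hδ))
        rw [eventually_cofinite]
        refine ((fin_child hΓ θ N u M).preimage Subtype.val_injective.injOn).subset ?_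
        rintro ⟨c, hc⟩ hbad
        refine ⟨hc, ?_⟩
        by_contra hlt
        apply hbad
        rintro _ ⟨F', hF', rfl⟩
        have h1 := fam_up r _ _ F' hF' z
        have h2 := gN_child hc.1 hc.2.1 hc.2.2.2.2 z
        have h4 := tail_anti (Nat.le_succ c.1) z
        have h5 := hM c.1 (not_lt.1 hlt)
        have hr : (0 : ℝ) ≤ r := Nat.cast_nonneg r
        have h6 := le_max_left (gN θ N u z) (F' z)
        simp only at h1 ⊢
        rw [abs_of_nonneg (by linarith), sub_lt_iff_lt_add]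
        refine max_lt (by linarith) ?_
        nlinarith)
    refine ⟨_, ?_, g, hg, hgi⟩
    rw [opow_lt_opow_iff_right one_lt_omega0]
    exact_mod_cast Nat.lt_succ_self _

theorem fam_approx {Γ : ℕ → Set ℝ} {η : ℝ} (hη : 0 < η) {x : E} {u : ℕ → ℝ}
    (hΓ : ∀ i, u i ∈ Γ i) (hu : ∀ N, ∑ i ∈ Finset.range N, |u i - x i| ≤ η) :
    ∀ (r N : ℕ) (v : ℕ → ℝ), (∀ i < N, v i = u i) → tail N x ≤ (r + 1) * η →
      ∃ F ∈ Fam Γ (2 * η) r N v, ∀ z, |F z - hor x z| ≤ 6 * η := by
  have key : ∀ (N : ℕ) (v : ℕ → ℝ), (∀ i < N, v i = u i) →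
      ∑ i ∈ Finset.range N, |v i - x i| ≤ η := fun N v hv => by
    rw [Finset.sum_congr rfl fun i hi => by rw [hv i (Finset.mem_range.1 hi)]]; exact hu N
  have base : ∀ (N : ℕ) (v : ℕ → ℝ), (∀ i < N, v i = u i) → tail N x ≤ η →
      ∀ z, |gN (2 * η) N v z - hor x z| ≤ 6 * η := fun N v hv hx z => by
    have h1 := gN_upper (θ := 2 * η) (key N v hv) z
    have h2 := gN_lower (θ := 2 * η) (key N v hv) (by linarith) z
    rw [abs_le]; constructor <;> linarith
  intro r
  induction r with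
  | zero =>
    intro N v hv hx
    exact ⟨_, rfl, base N v hv (by simpa using hx)⟩
  | succ r ih =>
    intro N v hv hx
    rcases le_or_gt (tail N x) η with h | h
    · exact ⟨_, Or.inl rfl, base N v hv h⟩
    have hex : ∃ k, tail (N + k + 1) x ≤ tail N x - η := by
      obtain ⟨M, hM⟩ := eventually_atTop.1
        ((tail_tendsto x).eventually (gt_mem_nhds (sub_pos.2 h)))
      exact ⟨M, (hM _ (by omega)).le⟩
    classical
    set k := Nat.find hex with hk
    have h1 : tail (N + k + 1) x ≤ tail N x - η := Nat.find_spec hex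
    have h2 : tail N x - η ≤ tail (N + k) x := by
      rcases Nat.eq_zero_or_pos k with h0 | h0
      · rw [h0]; simp; exact hη.le
      · have := Nat.find_min hex (m := k - 1) (by omega)
        rw [show N + (k - 1) + 1 = N + k by omega] at this
        exact (not_le.1 this).le
    let w : ℕ → ℝ := fun i => if i ≤ N + k then u i else 0
    have hw : ∀ i < N + k + 1, w i = u i := fun i hi => if_pos (by omega)
    have hc : Child Γ (2 * η) N v (N + k, w) := by
      refine ⟨Nat.le_add_right _ _, fun i hi => ?_, fun i hi => ?_, fun i hi => ?_, ?_⟩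
      · rw [hv i hi]; exact hw i (by omega)
      · have : w i = u i := hw i (by simp only at hi; omega)
        simp only; rw [this]; exact hΓ i
      · exact if_neg (by simp only at hi; omega)
      · simp only
        have a1 := tail_Ico (Nat.le_add_right N k) x
        have a2 : ∑ i ∈ Finset.Ico N (N + k), |w i| ≤
            ∑ i ∈ Finset.Ico N (N + k), (|u i - x i| + |x i|) :=
          Finset.sum_le_sum fun i hi => by
            rw [hw i (by have := (Finset.mem_Ico.1 hi).2; omega)]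
            have := abs_add_le (u i - x i) (x i)
            rwa [sub_add_cancel] at this
        rw [Finset.sum_add_distrib] at a2
        have a3 : ∑ i ∈ Finset.Ico N (N + k), |u i - x i| ≤
            ∑ i ∈ Finset.range (N + k), |u i - x i| :=
          Finset.sum_le_sum_of_subset_of_nonneg
            (fun i hi => Finset.mem_range.2 (Finset.mem_Ico.1 hi).2) fun _ _ _ => abs_nonneg _
        have a4 := hu (N + k)
        linarith
    obtain ⟨F, hF, hFz⟩ := ih (N + k + 1) w hw (by push_cast at hx; linarith)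
    refine ⟨fun z => max (gN (2 * η) N v z) (F z), Or.inr (mem_iUnion.2 ⟨⟨_, hc⟩, F, hF, rfl⟩),
      fun z => ?_⟩
    have b1 := gN_upper (θ := 2 * η) (key N v hv) z
    have b2 := abs_le.1 (hFz z)
    have b3 := le_max_right (gN (2 * η) N v z) (F z)
    rw [abs_le]
    constructor
    · linarith [b2.1]
    · rw [sub_le_iff_le_add]; exact max_le (by linarith) (by linarith [b2.2])

/-- Horofunctions of a ball of `ℓ₁` are uniformly approximated by a family of finite rank. -/
theorem exists_family (R η : ℝ) (hη : 0 < η) : ∃ S : Set (E → ℝ), Cov (ω ^ ω) S ∧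
    (∀ F ∈ S, F 0 = 0 ∧ ∀ z w, F z - F w ≤ ‖z - w‖) ∧
    ∀ x : E, ‖x‖ ≤ R → ∃ F ∈ S, ∀ z, |F z - hor x z| ≤ 12 * η := by
  have hnet : ∀ i : ℕ, ∃ G : Set ℝ, G.Finite ∧ ∀ t, |t| ≤ R → ∃ s ∈ G, |s - t| ≤ η / 2 / 2 ^ i := by
    intro i
    obtain ⟨G, hG, hcov⟩ := Metric.totallyBounded_iff.1
      (isCompact_Icc (a := -R) (b := R)).totallyBounded (η / 2 / 2 ^ i) (by positivity)
    refine ⟨G, hG, fun t ht => ?_⟩
    have := hcov (abs_le.1 ht)
    simp only [mem_iUnion, Metric.mem_ball, Real.dist_eq] at this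
    obtain ⟨s, hs, h⟩ := this
    exact ⟨s, hs, by rw [abs_sub_comm]; exact h.le⟩
  choose Γ hΓ hΓ' using hnet
  obtain ⟨r, hr⟩ := exists_nat_ge (R / η)
  refine ⟨(fun F z => F z - F 0) '' Fam Γ (2 * η) r 0 0, ?_, ?_, ?_⟩
  · refine ((fam_cov hΓ _ r 0 0).map _ fun z =>
      (continuous_apply z).sub (continuous_apply 0)).mono ?_
    exact opow_le_opow_right omega0_pos (natCast_lt_omega0 _).le
  · rintro _ ⟨F, hF, rfl⟩
    refine ⟨sub_self _, fun z w => ?_⟩
    have := fam_lip r 0 0 F hF z w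
    simp only; linarith
  · intro x hx
    have hxi : ∀ i, |x i| ≤ R := fun i =>
      (le_hasSum (hs x) i fun _ _ => abs_nonneg _).trans hx
    choose u hu hu' using fun i => hΓ' i (x i) (hxi i)
    have hsum : ∀ N, ∑ i ∈ Finset.range N, |u i - x i| ≤ η := fun N =>
      (Finset.sum_le_sum fun i _ => hu' i).trans
        (sum_le_hasSum _ (fun i _ => by positivity) (hasSum_geometric_two' η))
    obtain ⟨F, hF, hFz⟩ := fam_approx hη hu hsum r 0 0 (fun i hi => absurd hi (Nat.not_lt_zero i))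
      (by
        rw [div_le_iff₀ hη] at hr
        simp only [tail, Finset.range_zero, Finset.sum_empty]
        nlinarith)
    refine ⟨_, ⟨F, hF, rfl⟩, fun z => ?_⟩
    have h1 := abs_le.1 (hFz z)
    have h2 := abs_le.1 (hFz 0)
    have h3 : hor x 0 = 0 := by simp [hor]
    rw [h3] at h2
    rw [abs_le]
    constructor <;> simp only <;> linarith [h1.1, h1.2, h2.1, h2.2]

end Pool.Agent.H946Z.L1
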